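import Pool.Agent.Lib.MP_481aff_gt.Final

/-!
# The optimal exponent for layered veering triangulations

The infimum of the exponents `α` for which `n(Δ) ≤ C D(f) ^ α` holds for all layered veering
triangulations `Δ` and all monodromies `f` of carried fibres is `1`.
-/

namespace Pool.Agent.Results.MP_481aff_gt.OptimalExponent

open Pool.Agent.Lib.MP_481aff_gt

theorem result :
    IsGLB {α : ℝ | 0 < α ∧ ∃ C : ℝ, ∀ (H : Type) [Fintype H] (V : LayeredVeering H),
      (V.n : ℝ) ≤ C * V.D ^ α} 1 :=
  final

end Pool.Agent.Results.MP_481aff_gt.OptimalExponent
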